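import Pool.Graph.R_pool_sql_team_seeded_63374d34.N620.WU.Main
import Pool.Agent.Helper38.TDM.Free

set_option autoImplicit false

/-!
# Turing determinacy implies that set mappings on uncountable sets of reals have free sets

Stated as an explicit reduction to the determinacy of Turing invariant sets of reals.

Turing determinacy implies that every set mapping `S`, which assigns to each element of an
uncountable set `A` of reals a countable set of reals, has an uncountable free set `Z` contained in
`A` (`x` does not belong to `S y` for different elements `x`, `y` of `Z`); one even gets a Cantor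
set such that `Z` is contained in it and meets all of its subsets which are Cantor sets. For the set
of all reals this is a strong form of Freiling's axiom of symmetry, which with the axiom of choice
is equivalent to the negation of the continuum hypothesis. It follows that under Turing determinacy
the union of every chain of countable sets of reals is countable, and that the union of every well
ordered family of countable sets of reals is countable. (The proof that the determined sets give the
conclusions can be carried out with dependent choices only.)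

Proof. Weak uniformization (a theorem of the library) for the relation `v lists all elements of S y`
gives a Cantor set, parametrized by `p`, and a continuous function `q` such that in each Cantor
subset there is a point `y = p c` in `A` such that `q c` lists `S y`. As `p` is injective, for each
`n` the set of all `(c, c')` such that `p c` is the entry number `n` in the list `q c'` is closed
and nowhere dense. By a theorem of Mycielski the Cantor set can be shrunk such that no `p c` is
listed by `q c'` with `c'` different from `c`.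
-/

namespace Pool.Agent.Results.MP_917879_lc.FreeSets

open Pool.Agent.H685R3 Pool.Agent.N620.WP Pool.Agent.N620.WU Pool.Agent.Helper38.TDM

/-- Turing reducibility of elements of the Cantor space (Mathlib's Turing reducibility, for
characteristic functions). -/
def Reducible (x y : ℕ → Bool) : Prop := TuringReducible (charFn x) (charFn y)

/-- `x` and `y` have the same Turing degree. -/
def SameDegree (x y : ℕ → Bool) : Prop := Reducible x y ∧ Reducible y x

/-- The join `x ⊕ y`. -/
def Join (x y : ℕ → Bool) : ℕ → Bool := fun n => if n % 2 = 0 then x (n / 2) else y (n / 2)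

/-- The Turing saturation of a set. -/
def Saturation (B : Set (ℕ → Bool)) : Set (ℕ → Bool) := {x | ∃ x' ∈ B, SameDegree x' x}

/-- The sets attached to the relation `N` have the property `P`. The sets attached to `N` are the
Turing saturation of the set of all `y` such that for all `e` the bit `F y e` says correctly whether
there is a `v` computable from `y` with `N (Ψ y e) v`, and, for all reals `w` and `u`, the Turing
saturation of the set of all `(x ⊕ v) ⊕ u` with `N x v` and `v` computable from `x ⊕ w`. -/
def Attached (P : Set (ℕ → Bool) → Prop) (Ψ : (ℕ → Bool) → ℕ → ℕ → Bool) (F : (ℕ → Bool) → ℕ → Bool)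
    (N : (ℕ → Bool) → (ℕ → Bool) → Prop) : Prop :=
  P (Saturation {y | ∀ e, (∃ v, Reducible v y ∧ N (Ψ y e) v) ↔ F y e = true}) ∧
    ∀ w u, P (Saturation {y | ∃ x v, N x v ∧ Reducible v (Join x w) ∧ y = Join (Join x v) u})

/-- The relation given by a set `A` of reals and a set mapping `S`: `y` is in `A` and every element
of `S y` is one of the columns `v (pair n 0), v (pair n 1), ...` of `v`. -/
def Listing (A : Set (ℕ → Bool)) (S : (ℕ → Bool) → Set (ℕ → Bool)) (y v : ℕ → Bool) : Prop :=
  y ∈ A ∧ ∀ x ∈ S y, ∃ n, ∀ m, x m = v (Nat.pair n m)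

/-- `h` parametrizes a Cantor set. -/
def IsCantor (h : (ℕ → Bool) → ℕ → Bool) : Prop := Continuous h ∧ Function.Injective h

theorem saturation_eq {E : ℕ → List Bool → ℕ → Bool → Prop} {N : (ℕ → Bool) → (ℕ → Bool) → Prop} :
    Saturation {y | ∀ e, (∃ v, Reducible v y ∧ N (Psi (VE E) e y) v) ↔ G (VE E) e y 0 = true} =
      SN E N := by
  ext x
  constructor
  · rintro ⟨x', h, h1, h2⟩
    exact ⟨x', h1, h2, h⟩
  · rintro ⟨x', h1, h2, h⟩
    exact ⟨x', h, h1, h2⟩

theorem saturation_eq' {N : (ℕ → Bool) → (ℕ → Bool) → Prop} {w u : ℕ → Bool} :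
    Saturation {y | ∃ x v, N x v ∧ Reducible v (Join x w) ∧ y = Join (Join x v) u} =
      DD (AA N w) u := by
  ext x
  constructor
  · rintro ⟨x', ⟨a, v, h, h', rfl⟩, h1, h2⟩
    exact ⟨Join a v, join_mem_AA h h', h1, h2⟩
  · rintro ⟨a, ha, h1, h2⟩
    refine ⟨_, ⟨_, _, ha.1, ha.2, rfl⟩, ?_⟩
    have h3 : Join (Pool.Agent.Helper227.evn a) (Pool.Agent.Helper227.odd' a) = a :=
      Pool.Agent.Helper227.join_evn_odd a
    rw [h3]
    exact ⟨h1, h2⟩

/-- There are Borel maps `Ψ` (from the Cantor space to sequences of elements of the Cantor space) and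
`F` such that the sets attached to relations are Turing invariant, and such that the following
holds. Let `A` be a set of reals.

(1) Let `A` be uncountable and let `S y` be a countable set of reals for all `y` in `A`. If the sets
attached to the relation given by `A` and `S` are determined, then there are a Cantor set,
parametrized by `h`, and an uncountable subset `Z` of `A` and of this Cantor set which meets all
Cantor subsets of this Cantor set and which is free: `x` does not belong to `S y` for all different
elements `x`, `y` of `Z`.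

(2) Let `𝓒` be a chain of countable sets of reals and let `S y` be the intersection of its members
containing `y`. If the sets attached to the relation given by the union of `𝓒` and `S` are
determined, then the union of `𝓒` is countable.

(3) Let `ρ` be a function from the reals to a well ordered set `W` such that `A` has only countably
many elements in each fibre of `ρ`. If for every initial segment `I` of `W` the sets attached to the
relation given by the set of all `x` in `A` with `ρ x` in `I` and by the set mapping
`S y = {x ∈ A | ρ x ≤ ρ y}` are determined, then `A` is countable. -/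
theorem result :
    ∃ (Ψ : (ℕ → Bool) → ℕ → ℕ → Bool) (F : (ℕ → Bool) → ℕ → Bool), Measurable Ψ ∧ Measurable F ∧
      (∀ N : (ℕ → Bool) → (ℕ → Bool) → Prop, Attached TuringInvariant Ψ F N) ∧
      (∀ (A : Set (ℕ → Bool)) (S : (ℕ → Bool) → Set (ℕ → Bool)), ¬ A.Countable →
        (∀ y ∈ A, (S y).Countable) → Attached Determined Ψ F (Listing A S) →
          ∃ (h : (ℕ → Bool) → ℕ → Bool) (Z : Set (ℕ → Bool)), IsCantor h ∧ Z ⊆ A ∧
            Z ⊆ Set.range h ∧ ¬ Z.Countable ∧ (∀ k, IsCantor k → ∃ c, h (k c) ∈ Z) ∧
              ∀ x ∈ Z, ∀ y ∈ Z, x ≠ y → x ∉ S y) ∧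
      (∀ 𝓒 : Set (Set (ℕ → Bool)), IsChain (· ⊆ ·) 𝓒 → (∀ C ∈ 𝓒, C.Countable) →
        Attached Determined Ψ F (Listing (⋃₀ 𝓒) fun y => ⋂₀ {C ∈ 𝓒 | y ∈ C}) →
          (⋃₀ 𝓒).Countable) ∧
      ∀ (A : Set (ℕ → Bool)) (W : Type*) [LinearOrder W] [WellFoundedLT W] (ρ : (ℕ → Bool) → W),
        (∀ w, {x ∈ A | ρ x = w}.Countable) →
          (∀ I : Set W, IsLowerSet I → Attached Determined Ψ F
            (Listing {x ∈ A | ρ x ∈ I} fun y => {x ∈ A | ρ x ≤ ρ y})) → A.Countable := by
  obtain ⟨E, hE, hE'⟩ := Pool.Agent.Y588.PD.exists_fam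
  have main : ∀ (A : Set (ℕ → Bool)) (S : (ℕ → Bool) → Set (ℕ → Bool)), ¬ A.Countable →
      (∀ y ∈ A, (S y).Countable) →
      Attached Determined (fun y e => Psi (VE E) e y) (fun y e => G (VE E) e y 0) (Listing A S) →
      ∃ (h : (ℕ → Bool) → ℕ → Bool) (Z : Set (ℕ → Bool)), IsCantor h ∧ Z ⊆ A ∧
        Z ⊆ Set.range h ∧ ¬ Z.Countable ∧ (∀ k, IsCantor k → ∃ c, h (k c) ∈ Z) ∧
          ∀ x ∈ Z, ∀ y ∈ Z, x ≠ y → x ∉ S y := by
    intro A S hA hS hD
    have hdom : ¬ {x | ∃ v, Listing A S x v}.Countable := by
      refine fun h => hA (h.mono fun y hy => ?_)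
      obtain ⟨v, hv⟩ := exists_lists (hS y hy)
      exact ⟨v, hy, hv⟩
    obtain ⟨h1, h2⟩ := hD
    rw [saturation_eq] at h1
    obtain ⟨-, p, q, h3, h4, h5, h6⟩ := weak_unif hE hE' hdom h1 fun w u => by
      have h3 := h2 w u
      rwa [saturation_eq'] at h3
    obtain ⟨k, h7, h8, h9⟩ := exists_free h3 h4 h5
    have hmeet : ∀ g, IsCantor g → ∃ c, p (k (g c)) ∈
        {x | ∃ c, x = p (k c) ∧ Listing A S (p (k c)) (q (k c))} := by
      intro g hg
      obtain ⟨c, hc⟩ := h6 (fun c => k (g c)) (h7.comp hg.1) (h8.comp hg.2)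
      exact ⟨c, g c, rfl, hc⟩
    refine ⟨fun c => p (k c), {x | ∃ c, x = p (k c) ∧ Listing A S (p (k c)) (q (k c))},
      ⟨h3.comp h7, h4.comp h8⟩, ?_, ?_, ?_, hmeet, ?_⟩
    · rintro x ⟨c, rfl, hc⟩
      exact hc.1
    · rintro x ⟨c, rfl, -⟩
      exact ⟨c, rfl⟩
    · intro hc
      obtain ⟨g, h10, h11, h12⟩ := exists_avoid (hc.preimage (h4.comp h8))
      obtain ⟨c, hc'⟩ := hmeet g ⟨h10, h11⟩
      exact h12 c hc'
    · rintro x ⟨c, rfl, hc⟩ y ⟨c', rfl, hc'⟩ hne hmem
      obtain ⟨n, hn⟩ := hc'.2 _ hmem
      obtain ⟨m, hm⟩ := h9 c c' (fun h => hne (by rw [h])) n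
      exact hm (hn m)
  -- set mappings given by total relations
  have total : ∀ (A : Set (ℕ → Bool)) (S : (ℕ → Bool) → Set (ℕ → Bool)),
      (∀ y ∈ A, (S y).Countable) → (∀ x ∈ A, ∀ y ∈ A, x ∈ S y ∨ y ∈ S x) →
      Attached Determined (fun y e => Psi (VE E) e y) (fun y e => G (VE E) e y 0) (Listing A S) →
      A.Countable := by
    intro A S hS hT hD
    by_contra hA
    obtain ⟨-, Z, -, h1, -, h2, -, h3⟩ := main A S hA hS hD
    have h4 : ¬ Z.Subsingleton := fun h => h2 h.countable
    rw [Set.not_subsingleton_iff] at h4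
    obtain ⟨x, hx, y, hy, hxy⟩ := h4
    rcases hT x (h1 hx) y (h1 hy) with h | h
    · exact h3 x hx y hy hxy h
    · exact h3 y hy x hx hxy.symm h
  refine ⟨fun y e => Psi (VE E) e y, fun y e => G (VE E) e y 0, measurable_psi hE, measurable_G,
    fun N => ⟨?_, fun w u => ?_⟩, main, ?_, ?_⟩
  · rw [saturation_eq]
    exact inv_SN
  · rw [saturation_eq']
    exact inv_DD u
  · intro 𝓒 h𝓒 hc hD
    refine total _ _ ?_ ?_ hD
    · rintro y ⟨C, hC, hy⟩
      exact (hc C hC).mono (Set.sInter_subset_of_mem ⟨hC, hy⟩)
    · intro x _ y _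
      by_contra hcon
      simp only [Set.mem_sInter, Set.mem_ofPred_eq, not_or, not_forall] at hcon
      obtain ⟨⟨C, ⟨h1, h2⟩, h3⟩, D, ⟨h4, h5⟩, h6⟩ := hcon
      rcases h𝓒.total h1 h4 with h | h
      · exact h6 (h h2)
      · exact h3 (h h5)
  · intro A W _ _ ρ hρ hD
    have htot : ∀ x ∈ A, ∀ y ∈ A, x ∈ {x ∈ A | ρ x ≤ ρ y} ∨ y ∈ {z ∈ A | ρ z ≤ ρ x} :=
      fun x hx y hy => (le_total (ρ x) (ρ y)).imp (fun h => ⟨hx, h⟩) fun h => ⟨hy, h⟩
    have hle : ∀ w, {x ∈ A | ρ x < w}.Countable → {x ∈ A | ρ x ≤ w}.Countable := by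
      intro w hw
      refine (hw.union (hρ w)).mono fun x hx => ?_
      rcases lt_or_eq_of_le hx.2 with h | h
      · exact Or.inl ⟨hx.1, h⟩
      · exact Or.inr ⟨hx.1, h⟩
    have hlt : ∀ w, {x ∈ A | ρ x < w}.Countable := by
      intro w
      induction w using WellFoundedLT.induction with
      | ind w ih =>
        refine total {x ∈ A | ρ x ∈ Set.Iio w} _ (fun y hy => hle _ (ih _ hy.2)) ?_
          (hD (Set.Iio w) (isLowerSet_Iio w))
        exact fun x hx y hy => htot x hx.1 y hy.1
    have h1 := total {x ∈ A | ρ x ∈ Set.univ} _ (fun y hy => hle _ (hlt _))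
      (fun x hx y hy => htot x hx.1 y hy.1) (hD Set.univ isLowerSet_univ)
    refine h1.mono fun x hx => ?_
    exact ⟨hx, trivial⟩

end Pool.Agent.Results.MP_917879_lc.FreeSets
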